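import Pool.Agent.Q290.CV.Pell

/-!
# How much information do infinitely many pairs of primes `(p, r)` with `p ^ 2 - 2 * r ^ 2 = -1` cost?

Let `a n + b n √2 = (1 + √2) ^ n`. The positive solutions of `p ^ 2 - 2 * r ^ 2 = -1` are the pairs `(a n, b n)`, `n` odd, and if both members are
primes then `n` is an odd prime `l`. The usual model: the events that `a l` and `b l` are both prime are independent with probabilities `q l` of
the order `(log l / l) ^ 2`. Here `A` is ANY random set of integers and `info q μ A x` the relative entropy of the law of the set of the odd primes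
`l < x` with `a l, b l ∈ A` with respect to the model. For a nondecreasing function `d ≥ 0` almost surely only finitely many pairs `(a l, b l)`
belong to `A × A`, for all `A` with `info q μ A x ≤ d x` for large `x`, if and only if `∑ d n / (n (log n) ^ 2) < ∞`; otherwise there is such an
`A` for which almost surely infinitely many pairs `(a l, b l)` belong to `A × A`.
-/

set_option autoImplicit false

namespace Pool.Agent.Results.MP_927e73_nt.PairsAtGivenInformation

open Finset MeasureTheory Filter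
open Pool.Agent.Q120.ET (IsRandomSet)
open Pool.Agent.Q120.ME (ind)
open Pool.Agent.Q290.CV.Pell (a b U idx)

/-- the relative entropy of the law of the set of the odd primes `l < x` with `a l, b l ∈ A` with respect to the product law with the
probabilities `q l` -/
noncomputable def info (q : ℕ → ℝ) {Ω : Type} [MeasurableSpace Ω] (μ : Measure Ω) (A : Ω → Set ℕ) (x : ℕ) : ℝ :=
  Pool.Agent.Q120.ME.relEnt q μ (idx A) (ind U x)

/-- **Theorem.** Let `a n + b n √2 = (1 + √2) ^ n`, `0 < q l < 1` and `l ^ (-C) ≤ q l ≤ l ^ (-c)` for all large odd primes `l`, where `c > 1`, and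
let `d ≥ 0` be nondecreasing. Almost surely `a l, b l ∈ A` only for finitely many odd primes `l`, for ALL random sets `A` of natural numbers such
that for all large `x` the relative entropy of the law of the set of the odd primes `l < x` with `a l, b l ∈ A` with respect to the independent
model with the probabilities `q l` is at most `d x`, if and only if `∑ d n / (n (log n) ^ 2) < ∞`. If this sum diverges, then there is such a
random set which almost surely contains `a l` and `b l` for infinitely many odd primes `l`. -/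
theorem result (q : ℕ → ℝ) (hq : ∀ l ∈ U, 0 < q l ∧ q l < 1) (c C : ℝ) (hc : 1 < c)
    (h : ∀ᶠ l : ℕ in atTop, l ∈ U → (l : ℝ) ^ (-C) ≤ q l ∧ q l ≤ (l : ℝ) ^ (-c))
    (d : ℕ → ℝ) (hd : Monotone d) (hd0 : ∀ n, 0 ≤ d n) :
    ((∀ (Ω : Type) [MeasurableSpace Ω] (μ : Measure Ω) [IsProbabilityMeasure μ] (A : Ω → Set ℕ), IsRandomSet A →
      (∀ᶠ x : ℕ in atTop, info q μ A x ≤ d x) → ∀ᵐ ω ∂μ, {l | l ∈ U ∧ a l ∈ A ω ∧ b l ∈ A ω}.Finite) ↔
      Summable (fun n : ℕ => d n / (n * Real.log n ^ 2))) ∧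
    (¬ Summable (fun n : ℕ => d n / (n * Real.log n ^ 2)) →
      ∃ (Ω : Type) (_ : MeasurableSpace Ω) (μ : Measure Ω) (_ : IsProbabilityMeasure μ) (A : Ω → Set ℕ), IsRandomSet A ∧
        (∀ᶠ x : ℕ in atTop, info q μ A x ≤ d x) ∧ ∀ᵐ ω ∂μ, {l | l ∈ U ∧ a l ∈ A ω ∧ b l ∈ A ω}.Infinite) := by
  obtain ⟨h1, h2⟩ := Pool.Agent.Q290.CV.log_threshold Pool.Agent.Q290.CV.Pell.bertrand hq hc h hd hd0
  have him : ∀ {Ω : Type} [MeasurableSpace Ω] (μ : Measure Ω) (B : Ω → Set ℕ) (x : ℕ),
      info q μ (Pool.Agent.Q290.CV.Pell.im B) x = Pool.Agent.Q120.ME.relEnt q μ B (ind U x) := by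
    intro Ω _ μ B x
    exact Pool.Agent.Q290.CV.relEnt_congr μ q (fun l hl ω =>
      Pool.Agent.Q290.CV.Pell.mem_idx_im B (Pool.Agent.Q290.CV.mem_ind.1 hl).2 ω)
  have hset : ∀ {Ω : Type} (B : Ω → Set ℕ) (ω : Ω), {l | l ∈ U ∧ a l ∈ Pool.Agent.Q290.CV.Pell.im B ω ∧
      b l ∈ Pool.Agent.Q290.CV.Pell.im B ω} = B ω ∩ U := by
    intro Ω B ω
    ext l
    constructor
    · rintro ⟨hl, h3⟩
      exact ⟨(Pool.Agent.Q290.CV.Pell.mem_idx_im B hl ω).1 h3, hl⟩
    · rintro ⟨h3, hl⟩
      exact ⟨hl, (Pool.Agent.Q290.CV.Pell.mem_idx_im B hl ω).2 h3⟩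
  refine ⟨⟨fun hall => h1.1 ?_, fun hs Ω _ μ _ A hA hD => ?_⟩, fun hs => ?_⟩
  · intro Ω _ μ _ B hB hD
    have h3 := hall Ω μ (Pool.Agent.Q290.CV.Pell.im B) (Pool.Agent.Q290.CV.Pell.im_rand hB) (by
      simp only [him]
      exact hD)
    filter_upwards [h3] with ω hω
    rw [← hset B ω]
    exact hω
  · have h3 := h1.2 hs Ω μ (idx A) (Pool.Agent.Q290.CV.Pell.idx_rand hA) hD
    filter_upwards [h3] with ω hω
    exact hω.subset (fun l hl => ⟨hl.2, hl.1⟩)
  · obtain ⟨Ω, m, μ, hμ, B, hB, hD, hinf⟩ := h2 hs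
    refine ⟨Ω, m, μ, hμ, Pool.Agent.Q290.CV.Pell.im B, Pool.Agent.Q290.CV.Pell.im_rand hB, ?_, ?_⟩
    · simp only [him]
      exact hD
    · filter_upwards [hinf] with ω hω
      rw [hset B ω]
      exact hω

end Pool.Agent.Results.MP_927e73_nt.PairsAtGivenInformation
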