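import Mathlib
import Pool.Agent.Q166.NP.Core

set_option autoImplicit false

/-!
# Pairs near the solutions of `p ^ 2 - 2 r ^ 2 = -1`

`a n + b n √2 = (1 + √2) ^ n`; the solutions of `p ^ 2 - 2 r ^ 2 = -1` in positive integers are the
pairs `(a n, b n)`, `n` odd.  For `0 < s < 1` and `0 ≤ θ < 1` let
`N x s θ q = x q + ⌊θ 2 ^ ⌊s lam q⌋⌋`, `lam = log (1 + √2) / log 2`, an integer of the interval
`[x q, x q + (1 + √2) ^ (s q))`, for `x = a` and `x = b`.  For almost every pair `(θ, θ')` there are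
only finitely many primes `q` such that the `q`-rough parts of `N a s θ q` and of `N b s' θ' q` are
both prime.  For `θ = θ' = 0` these are, besides `q = 2`, the pairs of primes of the question.
-/

namespace Pool.Agent.Results.MP_927e73_nt.PairsNearSolutions

open Filter Topology MeasureTheory
open Pool.Agent.Q166.NP

/-- The solutions of `p ^ 2 - 2 r ^ 2 = -1` are the pairs `(a n, b n)` with odd `n`; for odd `n > 1` the
numbers `a n` and `b n` are both prime if and only if `n` is prime and their `n`-rough parts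
are prime. For almost every `(θ, θ')` only finitely many primes `q` give primes in both
sequences. -/
theorem result :
    (∀ p r : ℕ, (0 < p ∧ 0 < r ∧ (p : ℤ) ^ 2 - 2 * (r : ℤ) ^ 2 = -1) ↔
      ∃ n : ℕ, Odd n ∧ p = a n ∧ r = b n) ∧
    (∀ (x : ℕ → ℕ) (s : ℝ) (q : ℕ), N x s 0 q = x q) ∧
    (∀ n : ℕ, 2 ≤ n → Odd n → (((a n).Prime ∧ (b n).Prime) ↔
      n.Prime ∧ (roughPart n (a n)).Prime ∧ (roughPart n (b n)).Prime)) ∧
    ∃ δ : ℝ, 0 < δ ∧ δ < 1 ∧
      ∀ s s' : ℝ, 1 - δ ≤ s → s < 1 → 1 - δ ≤ s' → s' < 1 →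
        ∀ᵐ z : ℝ × ℝ, z.1 ∈ Set.Ico (0 : ℝ) 1 → z.2 ∈ Set.Ico (0 : ℝ) 1 →
          {q : ℕ | q.Prime ∧ (roughPart q (N a s z.1 q)).Prime ∧
            (roughPart q (N b s' z.2 q)).Prime}.Finite := by
  refine ⟨param, N_zero, fun n h2 hodd => ?_, pairs⟩
  rw [prime_iff a (Or.inl rfl) n h2 hodd, prime_iff b (Or.inr rfl) n h2 hodd]
  tauto

end Pool.Agent.Results.MP_927e73_nt.PairsNearSolutions
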