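import Mathlib
import Pool.Agent.Q166.NP.Core

set_option autoImplicit false

/-!
# Numbers near the solutions of `p ^ 2 - 2 r ^ 2 = -1`

`a n + b n √2 = (1 + √2) ^ n`; the solutions of `p ^ 2 - 2 r ^ 2 = -1` in positive integers are the
pairs `(a n, b n)`, `n` odd.  For `0 < s < 1` and `0 ≤ θ < 1` let
`N x s θ q = x q + ⌊θ 2 ^ ⌊s lam q⌋⌋`, `lam = log (1 + √2) / log 2`, an integer of the interval
`[x q, x q + (1 + √2) ^ (s q))`, for `x = a` and `x = b`.  For `θ = 0` it is `x q`, which for odd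
`q > 1` is prime if and only if `q` is prime and the `q`-rough part of `x q` is prime.  For
almost every `θ` the number of primes `q ≤ n` for which the `q`-rough part of `N x s θ q` is prime has
the order of magnitude `log n`; the same in every fixed set of primes.
-/

namespace Pool.Agent.Results.MP_927e73_nt.PrimesNearSolutions

open Filter Topology MeasureTheory
open Pool.Agent.Q166.NP

/-- The solutions of `p ^ 2 - 2 r ^ 2 = -1` are the pairs `(a n, b n)` with odd `n`; for odd `n > 1` the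
number `a n` (or `b n`) is prime if and only if `n` is prime and the `n`-rough part of `a n` (or `b n`)
is prime, so the counting functions `M` at `θ = 0` are those of the question. For almost every `θ`
they have the order of magnitude `log n`, and for sets of primes the order of magnitude of `V`. -/
theorem result :
    (∀ p r : ℕ, (0 < p ∧ 0 < r ∧ (p : ℤ) ^ 2 - 2 * (r : ℤ) ^ 2 = -1) ↔
      ∃ n : ℕ, Odd n ∧ p = a n ∧ r = b n) ∧
    (∀ (x : ℕ → ℕ) (s : ℝ) (q : ℕ), N x s 0 q = x q) ∧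
    (∀ x : ℕ → ℕ, (x = a ∨ x = b) → ∀ n : ℕ, 2 ≤ n → Odd n →
      ((x n).Prime ↔ n.Prime ∧ (roughPart n (x n)).Prime)) ∧
    ∃ δ c C : ℝ, 0 < δ ∧ δ < 1 ∧ 0 < c ∧ 0 < C ∧
      ∀ x : ℕ → ℕ, (x = a ∨ x = b) → ∀ s : ℝ, 1 - δ ≤ s → s < 1 →
        (∀ᵐ θ : ℝ, θ ∈ Set.Ico (0 : ℝ) 1 → ∀ᶠ n : ℕ in atTop,
          c * Real.log n ≤ M Set.univ x s θ n ∧ (M Set.univ x s θ n : ℝ) ≤ C * Real.log n) ∧
        (∀ S : Set ℕ, Tendsto (V S) atTop atTop → ∀ᵐ θ : ℝ, θ ∈ Set.Ico (0 : ℝ) 1 →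
          ∀ᶠ n : ℕ in atTop, c * V S n ≤ M S x s θ n ∧ (M S x s θ n : ℝ) ≤ C * V S n) ∧
        (∀ S : Set ℕ, ∀ᵐ θ : ℝ, θ ∈ Set.Ico (0 : ℝ) 1 →
          ({q : ℕ | q.Prime ∧ q ∈ S ∧ (roughPart q (N x s θ q)).Prime}.Infinite ↔
            Tendsto (V S) atTop atTop)) :=
  ⟨param, N_zero, prime_iff, single⟩

end Pool.Agent.Results.MP_927e73_nt.PrimesNearSolutions
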