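import Pool.Agent.Q217.SG.SilverMain

/-!
# Euclid's lemma for the solutions of `p ^ 2 - 2 r ^ 2 = -1` and sparse integers

The solutions of `p ^ 2 - 2 r ^ 2 = -1` in positive integers are the pairs `(H_n, P_n)`, `n` odd,
`H_n + P_n √2 = (1 + √2) ^ n`.  If `H_n` (or `P_n`) is prime then `n` is a prime or `1`, and if it
divides `x y` then it divides `x` or `y`.  We show that all these numbers with prime indices, and more
generally with indices without small prime factors, have this property of primes for integers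
with few Pell digits.

Let `x`, `y`, `q` be sums of `k₁`, `k₂`, `l` terms `a P_α + b P_(α + 1)`, with sums `S₁`, `S₂`, `S₃`
of the `|a| + 3 |b|`, and `K = k₁ + k₂ + l`. Suppose that `n` is odd and has no prime factor
`≤ 4 ^ K` and that `(2 K + 1) 4 ^ K ⌊log_2 (4 S₁ S₂ + 6 S₃)⌋ < n`.

(1) If `x y = q P_n` then `P_n ∣ x` or `P_n ∣ y`; if `x y = q H_n` then `H_n ∣ x` or `H_n ∣ y`.
(2) If `n` is a prime, `H_n = x y` or `P_n = x y` where `x`, `y` are sums of `k₁`, `k₂` terms `± P_α`,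
`k = k₁ + k₂`, and `2 (k + 2) ^ 2 4 ^ (k + 1) ≤ n`, then `x = ± 1` or `y = ± 1`.
-/

set_option autoImplicit false

namespace Pool.Agent.Results.MP_927e73_nt.SparseEuclid

open Finset Q217.SG Q217.SG.Silver

/-- The numbers `H_n`: `1, 1, 3, 7, 17, 41, ...` -/
def half : ℕ → ℕ
  | 0 => 1
  | 1 => 1
  | n + 2 => 2 * half (n + 1) + half n

theorem two_half (n : ℕ) : 2 * (half n : ZS) = γ ^ n + γ' ^ n := by
  induction n using Nat.twoStepInduction with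
  | zero => simp [half]; norm_num
  | one =>
    rw [half, pow_one, pow_one]
    ext
    · change (2 : ℤ) * 1 + 2 * 0 * 0 = 1 + 1
      norm_num
    · change (2 : ℤ) * 0 + 0 * 1 + 0 * 0 * 0 = 1 + -1
      norm_num
  | more n h1 h2 =>
    rw [half]
    push_cast
    have e1 : γ ^ (n + 2) = 2 * γ ^ (n + 1) + γ ^ n := by rw [pow_add, γ_sq]; ring
    have e2 : γ' ^ (n + 2) = 2 * γ' ^ (n + 1) + γ' ^ n := by rw [pow_add, γ'_sq]; ring
    rw [e1, e2]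
    linear_combination h1 + 2 * h2

theorem γ_mul_half (n : ℕ) : 2 * (γ ^ n * (half n : ZS)) = γ ^ (2 * n) + (-1) ^ n := by
  have h := two_half n
  rw [← γ_mul, mul_pow, mul_comm 2 n, pow_mul]
  linear_combination γ ^ n * h

theorem γ_mul_pell (n : ℕ) : γ ^ n * (δ * (pell n : ZS)) = γ ^ (2 * n) - (-1) ^ n := by
  rw [δ_pell, ← γ_mul, mul_pow, mul_comm 2 n, pow_mul]
  ring

theorem half_odd (n : ℕ) : half n % 2 = 1 ∧ half (n + 1) % 2 = 1 := by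
  induction n with
  | zero => constructor <;> rfl
  | succ n ih =>
    have h : half (n + 1 + 1) = 2 * half (n + 1) + half n := rfl
    omega

theorem coprime_eight (n : ℕ) : IsCoprime (half n : ℤ) 8 := by
  rw [Int.isCoprime_iff_gcd_eq_one]
  have h1 : Nat.Coprime (half n) (2 ^ 3) := by
    apply Nat.Coprime.pow_right
    rw [Nat.coprime_comm, Nat.Prime.coprime_iff_not_dvd (by norm_num)]
    intro h
    have := half_odd n
    omega
  exact_mod_cast h1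

/-- The pairs `(H_n, P_n)` with odd `n` are solutions. -/
theorem isSolution (n : ℕ) : (half n : ℤ) ^ 2 - 2 * (pell n : ℤ) ^ 2 = (-1) ^ n := by
  have h1 := two_half n
  have h2 := δ_pell n
  have h3 : ((8 * ((half n : ℤ) ^ 2 - 2 * (pell n : ℤ) ^ 2) : ℤ) : ZS) =
      ((8 * (-1) ^ n : ℤ) : ZS) := by
    push_cast
    have e : (γ ^ n + γ' ^ n) ^ 2 - (γ ^ n - γ' ^ n) ^ 2 = 4 * (-1) ^ n := by
      rw [← γ_mul, mul_pow]; ring
    rw [← h1, ← h2] at e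
    have e2 := δ_sq
    linear_combination 2 * e + (2 * (pell n : ZS) ^ 2) * e2
  have h4 := congrArg QuadraticAlgebra.re h3
  rw [QuadraticAlgebra.re_intCast, QuadraticAlgebra.re_intCast] at h4
  have h5 : (8 : ℤ) * ((half n : ℤ) ^ 2 - 2 * (pell n : ℤ) ^ 2) = 8 * (-1) ^ n := h4
  linarith

section Main

variable {n k₁ k₂ l : ℕ} {a₁ b₁ : Fin k₁ → ℤ} {α₁ : Fin k₁ → ℕ} {a₂ b₂ : Fin k₂ → ℤ}
  {α₂ : Fin k₂ → ℕ} {a₃ b₃ : Fin l → ℤ} {α₃ : Fin l → ℕ}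

theorem size_bound (d : Fin (l + l) → ZS) (v : ZS) (hv : sz v = 1)
    (hd : ∑ j, sz (d j) ≤ 3 * (weight a₃ b₃ : ℝ)) :
    ((∑ i, sz (coef a₁ b₁ α₁ i)) * (∑ i, sz (coef a₂ b₂ α₂ i)) +
        (∑ j, sz (d j)) * (sz 1 + sz v)) ^ 2 <
      4 * QS₀.θ ^
        (2 * Nat.log 2 (4 * weight a₁ b₁ * weight a₂ b₂ + 6 * weight a₃ b₃) + 1) := by
  have n1 : 0 ≤ ∑ i, sz (coef a₁ b₁ α₁ i) := Finset.sum_nonneg (fun i _ => QS₀.sz_nonneg _)
  have n2 : 0 ≤ ∑ i, sz (coef a₂ b₂ α₂ i) := Finset.sum_nonneg (fun i _ => QS₀.sz_nonneg _)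
  have n3 : 0 ≤ ∑ j, sz (d j) := Finset.sum_nonneg (fun i _ => QS₀.sz_nonneg _)
  have h1 : sz (1 : ZS) = 1 := QS₀.sz_one
  rw [h1, hv]
  apply silver_bound
  · exact add_nonneg (mul_nonneg n1 n2) (mul_nonneg n3 (by norm_num))
  · have h0 : (0 : ℝ) ≤ 2 * (weight a₁ b₁ : ℝ) := mul_nonneg (by norm_num) (Nat.cast_nonneg _)
    have h1 := mul_le_mul (sz_coef a₁ b₁ α₁) (sz_coef a₂ b₂ α₂) n2 h0
    push_cast
    linarith

theorem big {K : ℕ} {L : ℕ} (hK : K = k₁ + k₂ + l) (h : (2 * K + 1) * 4 ^ K * L < n) :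
    (∑ t, kk k₁ k₂ t + (l + l) + 1) * 2 ^ (∑ t, kk k₁ k₂ t + (l + l)) * (2 * L) < 2 * n := by
  have e : ∑ t, kk k₁ k₂ t + (l + l) = 2 * K := by rw [sum_kk, hK]; ring
  rw [e, pow_mul]
  calc (2 * K + 1) * (2 ^ 2) ^ K * (2 * L) = 2 * ((2 * K + 1) * 4 ^ K * L) := by norm_num; ring
    _ < 2 * n := by omega

theorem small {K : ℕ} (hK : K = k₁ + k₂ + l) (hn : ∀ p : ℕ, p.Prime → p ∣ n → 4 ^ K < p) :
    ∀ p : ℕ, p.Prime → Odd p → p ≤ 2 ^ (∑ t, kk k₁ k₂ t + (l + l)) → ¬ p ∣ n := by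
  intro p hp _ hle hd
  have e : ∑ t, kk k₁ k₂ t + (l + l) = 2 * K := by rw [sum_kk, hK]; ring
  rw [e, pow_mul] at hle
  have := hn p hp hd
  norm_num at hle
  omega

theorem cast_eq {N : ℕ} (h : value a₁ b₁ α₁ * value a₂ b₂ α₂ = value a₃ b₃ α₃ * (N : ℤ)) :
    (value a₁ b₁ α₁ : ZS) * (value a₂ b₂ α₂ : ZS) = (value a₃ b₃ α₃ : ZS) * (N : ZS) := by
  have := congrArg (fun z : ℤ => (z : ZS)) h
  push_cast at this
  exact this

theorem pell_case (hodd : Odd n) (hn : ∀ p : ℕ, p.Prime → p ∣ n → 4 ^ (k₁ + k₂ + l) < p)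
    (hbig : (2 * (k₁ + k₂ + l) + 1) * 4 ^ (k₁ + k₂ + l) *
      Nat.log 2 (4 * weight a₁ b₁ * weight a₂ b₂ + 6 * weight a₃ b₃) < n)
    (h : value a₁ b₁ α₁ * value a₂ b₂ α₂ = value a₃ b₃ α₃ * (pell n : ℤ)) :
    (pell n : ℤ) ∣ value a₁ b₁ α₁ ∨ (pell n : ℤ) ∣ value a₂ b₂ α₂ := by
  have hF := γ_mul_pell n
  rw [hodd.neg_one_pow, sub_neg_eq_add] at hF
  have h' := cast_eq h
  have key := silver_plus (n := n) hodd (kk k₁ k₂) (cc a₁ b₁ α₁ a₂ b₂ α₂) (ee α₁ α₂ n)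
    (coef a₃ b₃ α₃) (exps α₃ 0)
    (by
      rw [prod_cc, sum_list, G, QU.G_zero, one_mul, one_mul, ← hF]
      linear_combination γ ^ n * (δ * δ) * h')
    (2 * Nat.log 2 (4 * weight a₁ b₁ * weight a₂ b₂ + 6 * weight a₃ b₃))
    (by
      rw [Fin.prod_univ_two]
      refine size_bound (coef a₃ b₃ α₃) 1 QS₀.sz_one ?_
      have := sz_coef a₃ b₃ α₃
      have h2 : (0 : ℝ) ≤ weight a₃ b₃ := Nat.cast_nonneg _
      linarith)
    (big rfl hbig) (small rfl hn)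
  have hfin : ∀ x : ℤ, γ ^ (2 * n) + 1 ∣ δ * (x : ZS) → (pell n : ℤ) ∣ x := by
    intro x hx
    apply int_dvd
    rw [← hF] at hx
    have h1 : δ * (pell n : ZS) ∣ δ * (x : ZS) := (Dvd.intro_left _ rfl).trans hx
    have h2 := (mul_dvd_mul_iff_left δ_ne_zero).1 h1
    exact_mod_cast h2
  rcases dvd_cc a₁ b₁ α₁ a₂ b₂ α₂ key with h1 | h1
  · exact Or.inl (hfin _ h1)
  · exact Or.inr (hfin _ h1)

theorem half_case (hodd : Odd n) (hn : ∀ p : ℕ, p.Prime → p ∣ n → 4 ^ (k₁ + k₂ + l) < p)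
    (hbig : (2 * (k₁ + k₂ + l) + 1) * 4 ^ (k₁ + k₂ + l) *
      Nat.log 2 (4 * weight a₁ b₁ * weight a₂ b₂ + 6 * weight a₃ b₃) < n)
    (h : value a₁ b₁ α₁ * value a₂ b₂ α₂ = value a₃ b₃ α₃ * (half n : ℤ)) :
    (half n : ℤ) ∣ value a₁ b₁ α₁ ∨ (half n : ℤ) ∣ value a₂ b₂ α₂ := by
  have hneg : (-1 : ZS) ^ n = -1 := hodd.neg_one_pow
  have hF := γ_mul_half n
  rw [hneg] at hF
  have h' := cast_eq h
  have key := silver_minus (n := n) hodd (kk k₁ k₂) (cc a₁ b₁ α₁ a₂ b₂ α₂) (ee α₁ α₂ n)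
    (fun j => ω * coef a₃ b₃ α₃ j) (exps α₃ 0)
    (by
      simp only [mul_assoc]
      rw [← Finset.mul_sum, prod_cc, sum_list, G, QU.G_zero, one_mul, one_mul, ← hF]
      have e := two_ω
      linear_combination γ ^ n * (δ * δ) * h' -
        (γ ^ n * δ * (value a₃ b₃ α₃ : ZS) * (half n : ZS)) * e)
    (2 * Nat.log 2 (4 * weight a₁ b₁ * weight a₂ b₂ + 6 * weight a₃ b₃))
    (by
      rw [Fin.prod_univ_two]
      refine size_bound _ (-1) (by rw [sz, QU.sz_neg, QU.sz_one]) ?_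
      have h1 := sz_coef a₃ b₃ α₃
      have h2 : ∑ j, sz (ω * coef a₃ b₃ α₃ j) ≤ 3 / 2 * ∑ j, sz (coef a₃ b₃ α₃ j) := by
        rw [Finset.mul_sum]
        exact Finset.sum_le_sum (fun j _ => sz_ω_mul _)
      linarith)
    (big rfl hbig) (small rfl hn)
  have hinv : G (-(n : ℤ)) * γ ^ n = 1 := by
    rw [← G_natCast, G, G, ← QU.G_add, neg_add_cancel, QU.G_zero]
  have hγ' : γ' ^ n = -G (-(n : ℤ)) := by
    rw [← G_neg, hneg, neg_one_mul]
  have hfin : ∀ x : ℤ, 1 - γ ^ n ∣ δ * (x : ZS) → (half n : ℤ) ∣ x := by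
    intro x hx
    -- the conjugate divisibility
    have h1 : 1 + γ ^ n ∣ δ * (x : ZS) := by
      obtain ⟨w, hw⟩ := hx
      have h2 := congrArg star hw
      have hs : star (δ * (x : ZS)) = -(δ * (x : ZS)) := by
        rw [star_mul, star_δ]
        have : star (x : ZS) = (x : ZS) := by ext <;> simp
        rw [this]
        ring
      have hs2 : star (1 - γ ^ n : ZS) = 1 + G (-(n : ℤ)) := by
        rw [star_sub, star_one, star_pow, star_γ, hγ', sub_neg_eq_add]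
      rw [hs, star_mul, hs2] at h2
      refine ⟨-(G (-(n : ℤ)) * star w), ?_⟩
      linear_combination (-1 : ZS) * h2 + star w * hinv
    have h2 : (1 - γ ^ n) * (1 + γ ^ n) ∣ 2 * (δ * (x : ZS)) := by
      have e : 2 * (δ * (x : ZS)) = (δ * (x : ZS)) * (1 + γ ^ n) + (1 - γ ^ n) * (δ * (x : ZS)) := by
        ring
      rw [e]
      exact dvd_add (mul_dvd_mul_right hx _) (mul_dvd_mul_left _ h1)
    have h3 : 2 * (half n : ZS) ∣ (1 - γ ^ n) * (1 + γ ^ n) := by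
      refine ⟨-γ ^ n, ?_⟩
      have e : (1 - γ ^ n) * (1 + γ ^ n) = -(γ ^ (2 * n) + -1) := by
        rw [mul_comm 2 n, pow_mul]; ring
      rw [e, ← hF]
      ring
    have h4 := (mul_dvd_mul_iff_left (two_ne_zero)).1 (h3.trans h2)
    have h5 : (half n : ZS) ∣ δ * (δ * (x : ZS)) := h4.mul_left _
    rw [← mul_assoc, δ_sq] at h5
    have h6 : (((half n : ℤ)) : ZS) ∣ ((8 * x : ℤ) : ZS) := by
      push_cast
      exact h5
    exact (coprime_eight n).dvd_of_dvd_mul_left (int_dvd h6)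
  rcases dvd_cc a₁ b₁ α₁ a₂ b₂ α₂ key with h1 | h1
  · exact Or.inl (hfin _ h1)
  · exact Or.inr (hfin _ h1)

end Main

/-! ### Sparse factorizations -/

theorem log_bound {k₁ k₂ : ℕ} (h : 2 ≤ k₁ + k₂) :
    Nat.log 2 (4 * k₁ * k₂ + 6) ≤ k₁ + k₂ + 1 := by
  have h1 : 4 * k₁ * k₂ ≤ (k₁ + k₂) ^ 2 := by nlinarith [sq_nonneg ((k₁ : ℤ) - k₂)]
  have hpow : ∀ k : ℕ, 2 ≤ k → k ^ 2 + 6 < 2 ^ (k + 2) := by
    intro k hk
    induction k, hk using Nat.le_induction with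
    | base => norm_num
    | succ k hk ih =>
      have e : 2 ^ (k + 1 + 2) = 2 * 2 ^ (k + 2) := by ring
      rw [e]
      nlinarith
  have h2 := hpow (k₁ + k₂) h
  have h3 : Nat.log 2 (4 * k₁ * k₂ + 6) < k₁ + k₂ + 2 := by
    apply Nat.log_lt_of_lt_pow' (by omega)
    omega
  omega

theorem pell_pos (n : ℕ) : 0 < pell (n + 1) := by
  induction n with
  | zero => decide
  | succ n ih =>
    have h : pell (n + 1 + 1) = 2 * pell (n + 1) + pell n := rfl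
    omega

theorem part2 {p k₁ k₂ : ℕ} {N : ℕ} (hp : p.Prime) (hN : N = half p ∨ N = pell p)
    (hbig : 2 * (k₁ + k₂ + 2) ^ 2 * 4 ^ (k₁ + k₂ + 1) ≤ p) {x y : ℤ}
    (hx : Sparse k₁ x) (hy : Sparse k₂ y) (h : x * y = N) :
    (x = 1 ∨ x = -1) ∨ (y = 1 ∨ y = -1) := by
  have hN0 : (N : ℤ) ≠ 0 := by
    have : 0 < N := by
      rcases hN with h | h <;> rw [h]
      · have := half_odd p
        omega
      · obtain ⟨m, rfl⟩ := Nat.exists_eq_add_of_le' hp.pos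
        exact pell_pos m
    omega
  obtain ⟨a₁, α₁, hw₁, hx⟩ := sparse_value hx
  obtain ⟨a₂, α₂, hw₂, hy⟩ := sparse_value hy
  have hk1 : k₁ ≠ 0 := by
    rintro rfl
    apply hN0
    rw [← h, hx]
    simp [value]
  have hk2 : k₂ ≠ 0 := by
    rintro rfl
    apply hN0
    rw [← h, hy]
    simp [value]
  have hbase : 4 ^ (k₁ + k₂ + 1) < p := by
    have h1 : 1 ≤ 4 ^ (k₁ + k₂ + 1) := Nat.one_le_pow _ _ (by norm_num)
    have h2 : 2 ≤ 2 * (k₁ + k₂ + 2) ^ 2 := by nlinarith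
    have h3 := Nat.mul_le_mul_right (4 ^ (k₁ + k₂ + 1)) h2
    omega
  have hodd : Odd p := by
    apply hp.odd_of_ne_two
    intro h2
    have h1 : 4 ^ 1 ≤ 4 ^ (k₁ + k₂ + 1) := Nat.pow_le_pow_right (by norm_num) (by omega)
    omega
  have hn : ∀ r : ℕ, r.Prime → r ∣ p → 4 ^ (k₁ + k₂ + 1) < r := by
    intro r hr hrp
    rw [(Nat.prime_dvd_prime_iff_eq hr hp).1 hrp]
    exact hbase
  have hw3 : weight (fun _ : Fin 1 => (1 : ℤ)) 0 = 1 := by simp [weight]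
  have hlog := log_bound (k₁ := k₁) (k₂ := k₂) (by omega)
  have hb : (2 * (k₁ + k₂ + 1) + 1) * 4 ^ (k₁ + k₂ + 1) *
      Nat.log 2 (4 * weight a₁ 0 * weight a₂ 0 + 6 * weight (fun _ : Fin 1 => (1 : ℤ)) 0) <
        p := by
    rw [hw₁, hw₂, hw3, mul_one]
    generalize hk : k₁ + k₂ = k at *
    calc (2 * (k + 1) + 1) * 4 ^ (k + 1) * Nat.log 2 (4 * k₁ * k₂ + 6)
        ≤ (2 * (k + 1) + 1) * 4 ^ (k + 1) * (k + 1) := Nat.mul_le_mul_left _ hlog
      _ < 2 * (k + 2) ^ 2 * 4 ^ (k + 1) := by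
          have h1 : 0 < 4 ^ (k + 1) := by positivity
          have h2 : (2 * (k + 1) + 1) * (k + 1) < 2 * (k + 2) ^ 2 := by nlinarith
          nlinarith [Nat.mul_lt_mul_of_pos_right h2 h1]
      _ ≤ p := hbig
  have hval : value (fun _ : Fin 1 => (1 : ℤ)) 0 (fun _ => 1) = 1 := by simp [value, pell]
  have heq : value a₁ 0 α₁ * value a₂ 0 α₂ =
      value (fun _ : Fin 1 => (1 : ℤ)) 0 (fun _ => 1) * (N : ℤ) := by
    rw [hval, one_mul, ← hx, ← hy, h]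
  have key : (N : ℤ) ∣ x ∨ (N : ℤ) ∣ y := by
    rw [hx, hy]
    rcases hN with hN | hN
    · rw [hN] at heq ⊢
      exact half_case hodd hn hb heq
    · rw [hN] at heq ⊢
      exact pell_case hodd hn hb heq
  have hunit : ∀ u v : ℤ, u * v = N → (N : ℤ) ∣ u → v = 1 ∨ v = -1 := by
    intro u v huv hd
    obtain ⟨w, hw⟩ := hd
    have h1 : (N : ℤ) * (w * v) = N * 1 := by rw [← mul_assoc, ← hw, huv, mul_one]
    have h2 := mul_left_cancel₀ hN0 h1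
    exact Int.isUnit_iff.1 (IsUnit.of_mul_eq_one w (by rw [mul_comm]; exact h2))
  rcases key with h1 | h1
  · exact Or.inr (hunit x y h h1)
  · exact Or.inl (hunit y x (by rw [mul_comm]; exact h) h1)

/-- **Euclid's lemma for the solutions of `p ^ 2 - 2 r ^ 2 = -1` and sparse integers.** Let `n` be odd
without prime factors `≤ 4 ^ K`. If `P_n` (or `H_n`) divides the product of two integers with few
windows of Pell digits, with a sparse quotient, then it divides one of them. For primes `p` every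
nontrivial factorization of `P_p` and of `H_p` has at least about `log_4 p` terms `± P_α` in its two
factors. -/
theorem result :
    (∀ n : ℕ, Odd n → (half n : ℤ) ^ 2 - 2 * (pell n : ℤ) ^ 2 = -1) ∧
    (∀ (n k₁ k₂ l : ℕ) (a₁ b₁ : Fin k₁ → ℤ) (α₁ : Fin k₁ → ℕ) (a₂ b₂ : Fin k₂ → ℤ)
      (α₂ : Fin k₂ → ℕ) (a₃ b₃ : Fin l → ℤ) (α₃ : Fin l → ℕ), Odd n →
      (∀ p : ℕ, p.Prime → p ∣ n → 4 ^ (k₁ + k₂ + l) < p) →
      (2 * (k₁ + k₂ + l) + 1) * 4 ^ (k₁ + k₂ + l) *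
        Nat.log 2 (4 * weight a₁ b₁ * weight a₂ b₂ + 6 * weight a₃ b₃) < n →
      (value a₁ b₁ α₁ * value a₂ b₂ α₂ = value a₃ b₃ α₃ * (pell n : ℤ) →
        (pell n : ℤ) ∣ value a₁ b₁ α₁ ∨ (pell n : ℤ) ∣ value a₂ b₂ α₂) ∧
      (value a₁ b₁ α₁ * value a₂ b₂ α₂ = value a₃ b₃ α₃ * (half n : ℤ) →
        (half n : ℤ) ∣ value a₁ b₁ α₁ ∨ (half n : ℤ) ∣ value a₂ b₂ α₂)) ∧
    (∀ (p k₁ k₂ : ℕ) (x y : ℤ), p.Prime → 2 * (k₁ + k₂ + 2) ^ 2 * 4 ^ (k₁ + k₂ + 1) ≤ p →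
      Sparse k₁ x → Sparse k₂ y → (x * y = (half p : ℤ) ∨ x * y = (pell p : ℤ)) →
      (x = 1 ∨ x = -1) ∨ (y = 1 ∨ y = -1)) := by
  refine ⟨?_, ?_, ?_⟩
  · intro n hn
    rw [isSolution, hn.neg_one_pow]
  · intro n k₁ k₂ l a₁ b₁ α₁ a₂ b₂ α₂ a₃ b₃ α₃ ho hn hbig
    exact ⟨fun h => pell_case ho hn hbig h, fun h => half_case ho hn hbig h⟩
  · intro p k₁ k₂ x y hp hbig hx hy h
    rcases h with h | h
    · exact part2 hp (Or.inl rfl) hbig hx hy h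
    · exact part2 hp (Or.inr rfl) hbig hx hy h

end Pool.Agent.Results.MP_927e73_nt.SparseEuclid
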